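import Pool.Agent.KS6_44.KB.Rate

/-!
# The rate of convergence of the constants in the maximum principle of the Bergman spaces

Let `c(p)` be the optimal constant in Korenblum's maximum principle for the Bergman space `A^p`.
Then `1 - 200 (log p / p)^(1/2) ≤ c(p) ≤ 1 - (1/8) p^(-1/2)`, so `1 - c(p) = p^(-1/2 + o(1))`.

If `g` has exactly `N ≥ 1` zeros in `|z| ≤ 1 - ε`, then the quotient `w = f / g` satisfies in the
middle of the annulus `1 - |w(z')| ≤ (16/ε)^(8N+7) (1 - |w(z)|)` (the functions `u g - f`, `|u| = 1`,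
have `N` zeros too, and a holomorphic logarithm of the zero free part of `1 - w / u` has an imaginary
part bounded by `(N + 1) π`), while `|g|^p` is smaller by the factor `exp (-N p ε^2 / 60)` in
`|z| ≤ 1 - ε / 2`.
-/

set_option autoImplicit false

open Metric MeasureTheory Filter Topology

namespace Pool.Agent.Results.MP_ccab6c_an.ExponentOneHalf

/-- The number `r ∈ [0, 1)` is admissible for `p`: for all `f`, `g` analytic in the unit disc with
`|f| ≤ |g|` in the annulus `r < |z| < 1` the integral of `|f|^p` over the disc is at most that of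
`|g|^p` (both may be infinite). -/
def Admissible (p r : ℝ) : Prop :=
  0 ≤ r ∧ r < 1 ∧ ∀ f g : ℂ → ℂ, DifferentiableOn ℂ f (ball 0 1) → DifferentiableOn ℂ g (ball 0 1) →
    (∀ z : ℂ, r < ‖z‖ → ‖z‖ < 1 → ‖f z‖ ≤ ‖g z‖) →
    ∫⁻ z in ball (0 : ℂ) 1, ‖f z‖ₑ ^ p ≤ ∫⁻ z in ball (0 : ℂ) 1, ‖g z‖ₑ ^ p

/-- The constant `c(p)`: the supremum of the admissible numbers. -/
noncomputable def c (p : ℝ) : ℝ := sSup {r : ℝ | Admissible p r}

/-- (1) `1 - ε` is admissible for `p` if `0 < ε ≤ 1/2` and `p ≥ 10000 log (1/ε) / ε^2`.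
(2) `c(p) ≥ 1 - 200 (log p / p)^(1/2)` for all `p ≥ 2`. (3) `c(p) ≤ 1 - (1/8) p^(-1/2)` for all
`p ≥ 16`. (4) `log (1 - c(p)) / log p` tends to `-1/2` as `p` tends to infinity. -/
theorem result :
    (∀ ε p : ℝ, 0 < ε → ε ≤ 1 / 2 → 10000 * Real.log (1 / ε) / ε ^ 2 ≤ p → Admissible p (1 - ε)) ∧
    (∀ p : ℝ, 2 ≤ p → 1 - 200 * Real.sqrt (Real.log p / p) ≤ c p) ∧
    (∀ p : ℝ, 16 ≤ p → c p ≤ 1 - (1 / 8) * p ^ (-(1 / 2) : ℝ)) ∧
    Tendsto (fun p : ℝ => Real.log (1 - c p) / Real.log p) atTop (𝓝 (-(1 / 2))) :=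
  ⟨fun _ _ h1 h2 h3 => Pool.Agent.KS6_44.KB.N.adm_of h1 h2 h3, Pool.Agent.KS6_44.KB.N.lower,
    Pool.Agent.KS6_44.KB.N.upper, Pool.Agent.KS6_44.KB.N.exponent⟩

end Pool.Agent.Results.MP_ccab6c_an.ExponentOneHalf
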